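import Pool.Agent.H.MP_027d00_lc.ucomp.Defs

/-!
# Functions of small formula size, separation, protocols give formulas
-/

set_option autoImplicit false

namespace Pool.Agent.H.MP_027d00_lc.UComp

open Finset

/-- `h` has a formula of size at most `s`. -/
def Comp {V : Type} (s : ℕ) (h : (V → Bool) → Bool) : Prop :=
  ∃ F : Fm V, F.size ≤ s ∧ ∀ x, F.eval x = h x

namespace Comp

variable {V : Type} {s t : ℕ} {h k : (V → Bool) → Bool}

theorem mono (hst : s ≤ t) (hh : Comp s h) : Comp t h := by
  obtain ⟨F, hF, he⟩ := hh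
  exact ⟨F, hF.trans hst, he⟩

theorem const (s : ℕ) (b : Bool) : Comp s (fun _ : V → Bool => b) :=
  ⟨.const b, Nat.zero_le _, fun _ => rfl⟩

theorem and (hh : Comp s h) (hk : Comp t k) : Comp (s + t) (fun x => h x && k x) := by
  obtain ⟨F, hF, he⟩ := hh
  obtain ⟨G, hG, he'⟩ := hk
  exact ⟨.and F G, Nat.add_le_add hF hG, fun x => by simp [Fm.eval, he, he']⟩

theorem or (hh : Comp s h) (hk : Comp t k) : Comp (s + t) (fun x => h x || k x) := by
  obtain ⟨F, hF, he⟩ := hh
  obtain ⟨G, hG, he'⟩ := hk
  exact ⟨.or F G, Nat.add_le_add hF hG, fun x => by simp [Fm.eval, he, he']⟩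

/-- the dual formula -/
def neg : Fm V → Fm V
  | .const b => .const (!b)
  | .lit v b => .lit v (!b)
  | .and F G => .or (neg F) (neg G)
  | .or F G => .and (neg F) (neg G)

theorem neg_size (F : Fm V) : (neg F).size = F.size := by
  induction F with
  | const b => rfl
  | lit v b => rfl
  | and F G ihF ihG => simp [neg, Fm.size, ihF, ihG]
  | or F G ihF ihG => simp [neg, Fm.size, ihF, ihG]

theorem neg_eval (F : Fm V) (x : V → Bool) : (neg F).eval x = !(F.eval x) := by
  induction F with
  | const b => rfl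
  | lit v b => cases h : x v <;> cases b <;> simp [neg, Fm.eval, h]
  | and F G ihF ihG => simp [neg, Fm.eval, ihF, ihG]
  | or F G ihF ihG => simp [neg, Fm.eval, ihF, ihG]

theorem not (hh : Comp s h) : Comp s (fun x => !(h x)) := by
  obtain ⟨F, hF, he⟩ := hh
  exact ⟨neg F, by rw [neg_size]; exact hF, fun x => by rw [neg_eval, he]⟩

theorem iff_bool (hh : Comp s h) (b : Bool) : Comp s (fun x => h x == b) := by
  cases b with
  | true => simpa using hh
  | false =>
    have : (fun x => h x == false) = fun x => !(h x) := by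
      funext x; cases h x <;> rfl
    rw [this]; exact hh.not

theorem finset_and {ι : Type} (I : Finset ι) (H : ι → (V → Bool) → Bool)
    (hH : ∀ i ∈ I, Comp s (H i)) :
    Comp (I.card * s) (fun x => decide (∀ i ∈ I, H i x = true)) := by
  classical
  induction I using Finset.induction_on with
  | empty => simpa using Comp.const (V := V) 0 true
  | insert i I hi ih =>
    have h1 := (hH i (Finset.mem_insert_self i I)).and
      (ih (fun j hj => hH j (Finset.mem_insert_of_mem hj)))
    have e : (fun x => decide (∀ j ∈ insert i I, H j x = true)) =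
        fun x => H i x && decide (∀ j ∈ I, H j x = true) := by
      funext x
      by_cases hx : H i x = true
      · simp [hx]
      · have : H i x = false := by simpa using hx
        simp [this]
    rw [e, Finset.card_insert_of_notMem hi]
    exact h1.mono (by ring_nf; exact le_rfl)

theorem finset_or {ι : Type} (I : Finset ι) (H : ι → (V → Bool) → Bool)
    (hH : ∀ i ∈ I, Comp s (H i)) :
    Comp (I.card * s) (fun x => decide (∃ i ∈ I, H i x = true)) := by
  classical
  have h1 := (finset_and I (fun i x => !(H i x)) (fun i hi => (hH i hi).not)).not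
  have e : (fun x => decide (∃ i ∈ I, H i x = true)) =
      fun x => !(decide (∀ i ∈ I, (!(H i x)) = true)) := by
    funext x
    by_cases hx : ∃ i ∈ I, H i x = true
    · have : ¬ ∀ i ∈ I, (!(H i x)) = true := by
        obtain ⟨i, hi, hix⟩ := hx
        intro hall
        have := hall i hi
        rw [hix] at this
        simp at this
      rw [decide_eq_true hx, decide_eq_false this]; rfl
    · have : ∀ i ∈ I, (!(H i x)) = true := by
        intro i hi
        by_contra hc
        exact hx ⟨i, hi, by simpa using hc⟩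
      rw [decide_eq_false hx, decide_eq_true this]; rfl
  rw [e]
  exact h1

theorem lit (v : V) (b : Bool) : Comp 1 (fun x : V → Bool => x v == b) := by
  refine ⟨Fm.lit v b, le_rfl, fun x => rfl⟩

end Comp

theorem fsize_le {V : Type} {s : ℕ} {h : (V → Bool) → Bool} (hh : Comp s h) : fsize h ≤ s := by
  obtain ⟨F, hF, he⟩ := hh
  have h1 : F.size ∈ {s : ℕ | ∃ F : Fm V, F.size = s ∧ ∀ x, F.eval x = h x} := ⟨F, rfl, he⟩
  exact (Nat.sInf_le h1).trans hF

/-- Every function has a formula of size at most `n 2^n`. -/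
theorem comp_all {n : ℕ} (h : (Fin n → Bool) → Bool) : Comp (2 ^ n * n) h := by
  classical
  set I : Finset (Fin n → Bool) := Finset.univ.filter (fun x => h x = true) with hI
  have h1 : ∀ y ∈ I, Comp n (fun x : Fin n → Bool => decide (∀ i ∈ (Finset.univ : Finset (Fin n)),
      (x i == y i) = true)) := by
    intro y _
    have := Comp.finset_and (V := Fin n) (s := 1) (Finset.univ : Finset (Fin n))
      (fun i x => x i == y i) (fun i _ => Comp.lit i (y i))
    simpa using this
  have h2 := Comp.finset_or I (fun y x => decide (∀ i ∈ (Finset.univ : Finset (Fin n)),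
      (x i == y i) = true)) h1
  have e : h = fun x => decide (∃ y ∈ I, decide (∀ i ∈ (Finset.univ : Finset (Fin n)),
      (x i == y i) = true) = true) := by
    funext x
    cases hx : h x with
    | true =>
      symm
      rw [decide_eq_true_eq]
      refine ⟨x, ?_, ?_⟩
      · simp [hI, hx]
      · simp
    | false =>
      symm
      rw [decide_eq_false_iff_not]
      rintro ⟨y, hy, hxy⟩
      have : x = y := by
        funext i
        have := of_decide_eq_true hxy i (Finset.mem_univ i)
        simpa using this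
      subst this
      simp [hI, hx] at hy
  rw [e]
  refine h2.mono (Nat.mul_le_mul_right _ ?_)
  calc I.card ≤ (Finset.univ : Finset (Fin n → Bool)).card := Finset.card_le_card (Finset.subset_univ _)
    _ = 2 ^ n := by simp

theorem fsize_le_all {n : ℕ} (h : (Fin n → Bool) → Bool) : fsize h ≤ 2 ^ n * n :=
  fsize_le (comp_all h)

/-! ### functions of matrices -/

/-- `h`, a function of matrices, has a formula of size at most `s`. -/
def CompM {m n : ℕ} (s : ℕ) (h : Mat m n → Bool) : Prop :=
  ∃ F : Fm (Fin m × Fin n), F.size ≤ s ∧ ∀ X : Mat m n, F.eval (fun v => X v.1 v.2) = h X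

theorem CompM_iff {m n : ℕ} {s : ℕ} {h : Mat m n → Bool} :
    CompM s h ↔ Comp s (fun x : Fin m × Fin n → Bool => h (fun i j => x (i, j))) := by
  constructor
  · rintro ⟨F, hF, he⟩
    exact ⟨F, hF, fun x => he (fun i j => x (i, j))⟩
  · rintro ⟨F, hF, he⟩
    exact ⟨F, hF, fun X => he (fun v => X v.1 v.2)⟩

/-- There is a formula of size at most `s` that is true on `A` and false on `B`. -/
def Sep {m n : ℕ} (s : ℕ) (A B : Finset (Mat m n)) : Prop :=
  ∃ h : Mat m n → Bool, CompM s h ∧ (∀ X ∈ A, h X = true) ∧ ∀ X ∈ B, h X = false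

theorem Sep.mono {m n s t : ℕ} {A B A' B' : Finset (Mat m n)} (hs : s ≤ t) (hA : A' ⊆ A)
    (hB : B' ⊆ B) (h : Sep s A B) : Sep t A' B' := by
  obtain ⟨f, hf, h1, h2⟩ := h
  exact ⟨f, CompM_iff.2 ((CompM_iff.1 hf).mono hs), fun X hX => h1 X (hA hX),
    fun X hX => h2 X (hB hX)⟩

theorem Sep.symm {m n s : ℕ} {A B : Finset (Mat m n)} (h : Sep s A B) : Sep s B A := by
  obtain ⟨f, hf, h1, h2⟩ := h
  exact ⟨fun X => !(f X), CompM_iff.2 (CompM_iff.1 hf).not, fun X hX => by simp [h2 X hX],
    fun X hX => by simp [h1 X hX]⟩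

theorem Sep.empty_left {m n : ℕ} (s : ℕ) (B : Finset (Mat m n)) : Sep s ∅ B :=
  ⟨fun _ => false, CompM_iff.2 (Comp.const s false), fun X hX => absurd hX (Finset.notMem_empty X),
    fun _ _ => rfl⟩

theorem Sep.empty_right {m n : ℕ} (s : ℕ) (A : Finset (Mat m n)) : Sep s A ∅ :=
  (Sep.empty_left s A).symm

open scoped Classical in
theorem Sep.union_left {m n s t : ℕ} {A A' B : Finset (Mat m n)} (h : Sep s A B)
    (h' : Sep t A' B) : Sep (s + t) (A ∪ A') B := by
  obtain ⟨f, hf, h1, h2⟩ := h
  obtain ⟨f', hf', h1', h2'⟩ := h'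
  refine ⟨fun X => f X || f' X, CompM_iff.2 ((CompM_iff.1 hf).or (CompM_iff.1 hf')), ?_, ?_⟩
  · intro X hX
    rcases Finset.mem_union.1 hX with h | h
    · simp [h1 X h]
    · simp [h1' X h]
  · intro X hX
    simp [h2 X hX, h2' X hX]

open scoped Classical in
theorem Sep.union_right {m n s t : ℕ} {A B B' : Finset (Mat m n)} (h : Sep s A B)
    (h' : Sep t A B') : Sep (s + t) A (B ∪ B') :=
  (h.symm.union_left h'.symm).symm

/-- Karchmer-Wigderson: a protocol that finds a difference gives a separating formula. -/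
theorem Prot.sep {m n : ℕ} (P : Prot (Mat m n) (Mat m n) (Fin m × Fin n)) :
    ∀ A B : Finset (Mat m n),
      (∀ X ∈ A, ∀ Y ∈ B, X (P.run X Y).1 (P.run X Y).2 ≠ Y (P.run X Y).1 (P.run X Y).2) →
      Sep P.leaves A B := by
  classical
  induction P with
  | out o =>
    intro A B h
    rcases A.eq_empty_or_nonempty with hA | ⟨X₀, hX₀⟩
    · subst hA; exact Sep.empty_left _ _
    rcases B.eq_empty_or_nonempty with hB | ⟨Y₀, hY₀⟩
    · subst hB; exact Sep.empty_right _ _
    have h' : ∀ X ∈ A, ∀ Y ∈ B, X o.1 o.2 ≠ Y o.1 o.2 := h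
    refine ⟨fun X => X o.1 o.2 == X₀ o.1 o.2, CompM_iff.2 ?_, ?_, ?_⟩
    · exact Comp.lit (V := Fin m × Fin n) (o.1, o.2) (X₀ o.1 o.2)
    · intro X hX
      have h1 := h' X hX Y₀ hY₀
      have h2 := h' X₀ hX₀ Y₀ hY₀
      cases e1 : X o.1 o.2 <;> cases e2 : X₀ o.1 o.2 <;> cases e3 : Y₀ o.1 o.2 <;> simp_all
    · intro Y hY
      have h2 := h' X₀ hX₀ Y hY
      cases e2 : X₀ o.1 o.2 <;> cases e3 : Y o.1 o.2 <;> simp_all
  | alice q P₀ P₁ ih₀ ih₁ =>
    intro A B h
    have e : A = A.filter (fun X => q X = false) ∪ A.filter (fun X => q X = true) := by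
      ext X
      cases hq : q X <;> simp [hq]
    rw [e]
    refine Sep.union_left (ih₀ _ _ ?_) (ih₁ _ _ ?_)
    · intro X hX Y hY
      rw [Finset.mem_filter] at hX
      have := h X hX.1 Y hY
      simpa [Prot.run, hX.2] using this
    · intro X hX Y hY
      rw [Finset.mem_filter] at hX
      have := h X hX.1 Y hY
      simpa [Prot.run, hX.2] using this
  | bob q P₀ P₁ ih₀ ih₁ =>
    intro A B h
    have e : B = B.filter (fun X => q X = false) ∪ B.filter (fun X => q X = true) := by
      ext X
      cases hq : q X <;> simp [hq]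
    rw [e]
    refine Sep.union_right (ih₀ _ _ ?_) (ih₁ _ _ ?_)
    · intro X hX Y hY
      rw [Finset.mem_filter] at hY
      have := h X hX Y hY.1
      simpa [Prot.run, hY.2] using this
    · intro X hX Y hY
      rw [Finset.mem_filter] at hY
      have := h X hX Y hY.1
      simpa [Prot.run, hY.2] using this

theorem Prot.leaves_pos {A B O : Type} (P : Prot A B O) : 1 ≤ P.leaves := by
  induction P with
  | out o => exact le_rfl
  | alice q P₀ P₁ ih₀ ih₁ => simp only [Prot.leaves]; omega
  | bob q P₀ P₁ ih₀ ih₁ => simp only [Prot.leaves]; omega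

theorem Prot.leaves_le {A B O : Type} (P : Prot A B O) : P.leaves ≤ 2 ^ P.depth := by
  induction P with
  | out o => exact le_rfl
  | alice q P₀ P₁ ih₀ ih₁ =>
    simp only [Prot.leaves, Prot.depth, pow_succ]
    have h0 : 2 ^ P₀.depth ≤ 2 ^ max P₀.depth P₁.depth :=
      Nat.pow_le_pow_right (by norm_num) (le_max_left _ _)
    have h1 : 2 ^ P₁.depth ≤ 2 ^ max P₀.depth P₁.depth :=
      Nat.pow_le_pow_right (by norm_num) (le_max_right _ _)
    omega
  | bob q P₀ P₁ ih₀ ih₁ =>
    simp only [Prot.leaves, Prot.depth, pow_succ]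
    have h0 : 2 ^ P₀.depth ≤ 2 ^ max P₀.depth P₁.depth :=
      Nat.pow_le_pow_right (by norm_num) (le_max_left _ _)
    have h1 : 2 ^ P₁.depth ≤ 2 ^ max P₀.depth P₁.depth :=
      Nat.pow_le_pow_right (by norm_num) (le_max_right _ _)
    omega

end Pool.Agent.H.MP_027d00_lc.UComp
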