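import Pool.Agent.H.MP_027d00_lc.ucomp.Tree

/-!
# The lower bound for the composition with the universal relation
-/

set_option autoImplicit false

open Finset

namespace Pool.Agent.H.MP_027d00_lc.UComp

theorem nu_root {m n : ℕ} {μ : Bool → (Fin n → Bool) → ℝ} (h1 : ∀ b, ∑ x, μ b x = 1)
    {g : (Fin n → Bool) → Bool} (hs : ∀ b x, μ b x ≠ 0 → g x = b) (T : Finset (Fin m → Bool)) :
    nu μ g (Finset.univ.filter (fun X : Mat m n => rows g X ∈ T)) = T.card := by
  classical
  unfold nu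
  rw [← Finset.sum_fiberwise_of_maps_to (t := T) (g := rows g)
      (fun X hX => (Finset.mem_filter.1 hX).2)]
  have : ∀ a ∈ T, ∑ X ∈ (Finset.univ.filter (fun X : Mat m n => rows g X ∈ T)) with rows g X = a,
      W μ (rows g X) X = 1 := by
    intro a ha
    rw [← W_sum h1 a]
    rw [← Finset.sum_subset (Finset.subset_univ
      ((Finset.univ.filter (fun X : Mat m n => rows g X ∈ T)).filter (fun X => rows g X = a)))]
    · refine Finset.sum_congr rfl fun X hX => ?_
      rw [(Finset.mem_filter.1 hX).2]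
    · intro X _ hX
      by_contra hne
      apply hX
      have := W_supp hs hne
      simp [this, ha]
  rw [Finset.sum_congr rfl this]
  simp

theorem pow_k_le {m : ℕ} (hm : 1 ≤ m) : (1 + 1 / (8 * (m : ℝ))) ^ m ≤ 8 / 7 := by
  have hmR : (1 : ℝ) ≤ m := by exact_mod_cast hm
  have hm0 : (0 : ℝ) < m := by linarith
  have h1 : 7 / 8 ≤ (1 - 1 / (8 * (m : ℝ))) ^ m := by
    have h2 : (-2 : ℝ) ≤ -(1 / (8 * (m : ℝ))) := by
      have : 1 / (8 * (m : ℝ)) ≤ 1 := by
        rw [div_le_one (by positivity)]; linarith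
      linarith
    have h3 := one_add_mul_le_pow h2 m
    have e : 1 + (m : ℝ) * -(1 / (8 * (m : ℝ))) = 7 / 8 := by field_simp; norm_num
    rw [e] at h3
    exact h3
  have h4 : (1 + 1 / (8 * (m : ℝ))) * (1 - 1 / (8 * (m : ℝ))) ≤ 1 := by
    have : 0 ≤ (1 / (8 * (m : ℝ))) ^ 2 := sq_nonneg _
    nlinarith
  have h5 : 0 ≤ (1 + 1 / (8 * (m : ℝ))) * (1 - 1 / (8 * (m : ℝ))) := by
    have : 1 / (8 * (m : ℝ)) ≤ 1 := by
      rw [div_le_one (by positivity)]; linarith
    have h6 : 0 ≤ 1 / (8 * (m : ℝ)) := by positivity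
    exact mul_nonneg (by linarith) (by linarith)
  have h7 : (1 + 1 / (8 * (m : ℝ))) ^ m * (1 - 1 / (8 * (m : ℝ))) ^ m ≤ 1 := by
    rw [← mul_pow]
    exact pow_le_one₀ h5 h4
  have h8 : 0 ≤ (1 + 1 / (8 * (m : ℝ))) ^ m := by positivity
  nlinarith

/-- The main inequality. -/
theorem core {m n w : ℕ} (hm : 1 ≤ m) (hn : 1 ≤ n) (hw : 1 ≤ w) (hwn : w ≤ 2 ^ n)
    (g : (Fin n → Bool) → Bool) (hg1 : ∃ x, g x = true) (hg0 : ∃ x, g x = false)
    (hL : ∀ t : ℕ, t ≤ 8 * w * m →
      ¬ Comp (288 ^ 6 * 216 * (m ^ 6 * n ^ 3 * (t * ((n + 1) * w)))) g)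
    (T : Finset (Fin m → Bool)) (hT : 2 ≤ T.card)
    (P : Prot (Mat m n) (Mat m n) (Fin m × Fin n))
    (hP : ∀ X Y : Mat m n, rows g X ∈ T → rows g Y ∈ T → rows g X ≠ rows g Y →
      X (P.run X Y).1 (P.run X Y).2 ≠ Y (P.run X Y).1 (P.run X Y).2) :
    T.card * w ≤ 36 * m * n * P.leaves := by
  classical
  have hmR : (1 : ℝ) ≤ m := by exact_mod_cast hm
  have hm0 : (0 : ℝ) < m := by linarith
  have hwR : (1 : ℝ) ≤ w := by exact_mod_cast hw
  have hw0 : (0 : ℝ) < w := by linarith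
  have hnR : (1 : ℝ) ≤ n := by exact_mod_cast hn
  set τ : ℝ := 1 / (8 * w * m) with hτ
  have hden : (1 : ℝ) ≤ 8 * w * m := by nlinarith
  have hτ0 : 0 < τ := by rw [hτ]; positivity
  have hτ1 : τ ≤ 1 := by rw [hτ, div_le_one (by positivity)]; exact hden
  obtain ⟨μ, h0, h1, hs, hE⟩ := exists_hard (s := (n + 1) * w) hm g hg1 hg0 hτ0 hτ1 (by
    intro t ht
    apply hL t
    have h2 : (t : ℝ) ≤ 8 * w * m := by
      rw [hτ, mul_one_div, div_le_one (by positivity)] at ht
      exact ht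
    exact_mod_cast h2)
  set k : ℝ := 1 + 1 / (8 * (m : ℝ)) with hk
  have hk1 : 1 ≤ k := by
    have : 0 ≤ 1 / (8 * (m : ℝ)) := by positivity
    rw [hk]; linarith
  have hkm : k ^ m ≤ 8 / 7 := pow_k_le hm
  have hq : 2 * w ≤ 2 ^ (n + 1) := by rw [pow_succ]; omega
  have hK : ∀ (c : ℕ) (Q : Finset (Mat m n)), c ≤ w → Good g c Q → nu μ g Q ≤ 3 / 2 := by
    intro c Q hc hQ
    have h2 := nu_le h0 h1 hk1 hτ0.le hE hq le_rfl hc hQ
    have e : 1 + 2 * (w : ℝ) * (m * τ) = 5 / 4 := by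
      rw [hτ]; field_simp; norm_num
    rw [e] at h2
    linarith
  set D : Finset (Mat m n) := Finset.univ.filter (fun X : Mat m n => rows g X ∈ T) with hD
  obtain ⟨Q, c, hQ, hc, hG, hfin⟩ := tree h0 hw (K := 3 / 2) (by norm_num) hK P D D (by
    intro X hX Y hY hXY
    rw [hD, Finset.mem_filter] at hX hY
    exact hP X Y hX.2 hY.2 hXY)
  rw [Finset.inter_self] at hfin
  have hroot : nu μ g D = T.card := nu_root h1 hs T
  have h2 : nu μ g D ≤ nu μ g (D \ Q) + nu μ g Q := by
    refine (nu_mono h0 ?_).trans (nu_union h0 _ _)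
    intro X hX
    simp only [Finset.mem_sdiff, Finset.mem_union]
    tauto
  have h3 := hK c Q hc hG
  have hlog : (Nat.log 2 D.card : ℝ) ≤ m * n := by
    have h4 : Nat.log 2 D.card ≤ m * n := by
      have h5 : D.card ≤ 2 ^ (m * n) := by
        calc D.card ≤ (Finset.univ : Finset (Mat m n)).card := Finset.card_le_card (Finset.subset_univ _)
          _ = 2 ^ (m * n) := by
            simp [Finset.card_univ, ← pow_mul, mul_comm]
      calc Nat.log 2 D.card ≤ Nat.log 2 (2 ^ (m * n)) := Nat.log_mono_right h5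
        _ = m * n := Nat.log_pow (by norm_num) _
    exact_mod_cast h4
  have hα : (0 : ℝ) ≤ 2 * (3 / 2) / w := by positivity
  have hα' : (2 : ℝ) * (3 / 2) / w = 3 / w := by norm_num
  rw [hα'] at hfin hα
  have hc0 : 0 ≤ 3 / (w : ℝ) * c := by positivity
  have hl : (0 : ℝ) ≤ P.leaves := by positivity
  have h6 : (P.leaves : ℝ) * (1 + 2 * (Nat.log 2 D.card : ℝ)) ≤ P.leaves * (3 * (m * n)) := by
    apply mul_le_mul_of_nonneg_left _ hl
    have : (1 : ℝ) ≤ m * n := by nlinarith
    linarith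
  have h7 := mul_le_mul_of_nonneg_left h6 hα
  have hTR : (2 : ℝ) ≤ T.card := by exact_mod_cast hT
  have h8 : (T.card : ℝ) ≤ 4 * (3 / w * (P.leaves * (3 * (m * n)))) := by linarith
  have h9 : (T.card : ℝ) * w ≤ 36 * m * n * P.leaves := by
    calc (T.card : ℝ) * w ≤ 4 * (3 / w * (P.leaves * (3 * (m * n)))) * w :=
          mul_le_mul_of_nonneg_right h8 hw0.le
      _ = 36 * m * n * P.leaves := by field_simp; ring
  exact_mod_cast h9

/-- The lower bound for a set `T` of types. -/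
theorem main_types {m n : ℕ} (g : (Fin n → Bool) → Bool) (hg1 : ∃ x, g x = true)
    (hg0 : ∃ x, g x = false) (T : Finset (Fin m → Bool)) (hT : 2 ≤ T.card)
    (P : Prot (Mat m n) (Mat m n) (Fin m × Fin n))
    (hP : ∀ X Y : Mat m n, rows g X ∈ T → rows g Y ∈ T → rows g X ≠ rows g Y →
      X (P.run X Y).1 (P.run X Y).2 ≠ Y (P.run X Y).1 (P.run X Y).2) :
    T.card ^ 2 * fsize g ≤ 36 ^ 2 * 64 * (288 ^ 6 * 216) * m ^ 9 * n ^ 6 * P.leaves ^ 2 := by
  classical
  have hm : 1 ≤ m := by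
    rcases Nat.eq_zero_or_pos m with h | h
    · exfalso
      subst h
      have : T.card ≤ 1 := by
        rw [Finset.card_le_one]
        intro a _ b _
        exact funext fun i => i.elim0
      omega
    · exact h
  have hn : 1 ≤ n := by
    rcases Nat.eq_zero_or_pos n with h | h
    · exfalso
      subst h
      obtain ⟨x, hx⟩ := hg1
      obtain ⟨y, hy⟩ := hg0
      have : x = y := funext fun i => i.elim0
      rw [this, hy] at hx
      exact absurd hx (by simp)
    · exact h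
  set C₀ : ℕ := 288 ^ 6 * 216 with hC₀
  have hC₀pos : 0 < C₀ := by rw [hC₀]; norm_num
  set L : ℕ := fsize g with hL
  rcases Nat.eq_zero_or_pos L with hL0 | hLpos
  · rw [hL0, mul_zero]; exact Nat.zero_le _
  set A : ℕ := 16 * C₀ * m ^ 7 * n ^ 4 with hA
  have hApos : 0 < A := by rw [hA]; positivity
  set w : ℕ := Nat.sqrt ((L - 1) / A) with hw
  have hw2 : A * (w * w) ≤ L - 1 := by
    have h1 : w * w ≤ (L - 1) / A := Nat.sqrt_le _
    calc A * (w * w) ≤ A * ((L - 1) / A) := Nat.mul_le_mul_left _ h1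
      _ ≤ L - 1 := Nat.mul_div_le _ _
  have hw3 : L ≤ A * ((w + 1) * (w + 1)) := by
    have h1 : (L - 1) / A < (w + 1) * (w + 1) := Nat.lt_succ_sqrt _
    have h2 : L - 1 < A * ((w + 1) * (w + 1)) := by
      rw [Nat.div_lt_iff_lt_mul hApos] at h1
      rw [mul_comm]
      exact h1
    omega
  have hmn : m ^ 7 * n ^ 4 ≤ m ^ 9 * n ^ 6 :=
    Nat.mul_le_mul (Nat.pow_le_pow_right hm (by norm_num)) (Nat.pow_le_pow_right hn (by norm_num))
  rcases Nat.eq_zero_or_pos w with hw0 | hwpos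
  · -- trivial bound
    have h1 : T.card ≤ 2 * P.leaves := by
      set D : Finset (Mat m n) := Finset.univ.filter (fun X : Mat m n => rows g X ∈ T) with hD
      have h2 := types_le P D D (by
        intro X hX Y hY hXY
        rw [hD, Finset.mem_filter] at hX hY
        exact hP X Y hX.2 hY.2 hXY)
      rw [Finset.inter_self] at h2
      refine le_trans (Finset.card_le_card ?_) h2
      intro a ha
      obtain ⟨x, hx⟩ := hg1
      obtain ⟨y, hy⟩ := hg0
      have h3 : rows g (fun i => if a i = true then x else y : Mat m n) = a := by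
        funext i
        change g (if a i = true then x else y) = a i
        cases h : a i with
        | true => rw [if_pos rfl]; exact hx
        | false => rw [if_neg (by simp)]; exact hy
      rw [Finset.mem_image]
      refine ⟨fun i => if a i = true then x else y, ?_, h3⟩
      rw [hD, Finset.mem_filter]
      exact ⟨Finset.mem_univ _, by rw [h3]; exact ha⟩
    rw [hw0] at hw3
    simp only [zero_add, mul_one] at hw3
    calc T.card ^ 2 * L ≤ (2 * P.leaves) ^ 2 * A :=
          Nat.mul_le_mul (Nat.pow_le_pow_left h1 2) hw3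
      _ = 64 * C₀ * (m ^ 7 * n ^ 4) * P.leaves ^ 2 := by rw [hA]; ring
      _ ≤ 64 * C₀ * (m ^ 9 * n ^ 6) * P.leaves ^ 2 :=
          Nat.mul_le_mul_right _ (Nat.mul_le_mul_left _ hmn)
      _ ≤ 36 ^ 2 * (64 * C₀ * (m ^ 9 * n ^ 6) * P.leaves ^ 2) :=
          Nat.le_mul_of_pos_left _ (by norm_num)
      _ = 36 ^ 2 * 64 * C₀ * m ^ 9 * n ^ 6 * P.leaves ^ 2 := by ring
  · have hwn : w ≤ 2 ^ n := by
      have h1 : w * w ≤ 2 ^ n * 2 ^ n := by
        calc w * w ≤ A * (w * w) := Nat.le_mul_of_pos_left _ hApos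
          _ ≤ L - 1 := hw2
          _ ≤ L := Nat.sub_le _ _
          _ ≤ 2 ^ n * n := fsize_le_all g
          _ ≤ 2 ^ n * 2 ^ n := Nat.mul_le_mul_left _ (Nat.lt_two_pow_self).le
      exact Nat.mul_self_le_mul_self_iff.1 h1
    have h2 := core hm hn hwpos hwn g hg1 hg0 (by
      intro t ht hc
      have h3 : L ≤ 288 ^ 6 * 216 * (m ^ 6 * n ^ 3 * (t * ((n + 1) * w))) := fsize_le hc
      have h4 : 288 ^ 6 * 216 * (m ^ 6 * n ^ 3 * (t * ((n + 1) * w))) ≤ A * (w * w) := by
        calc 288 ^ 6 * 216 * (m ^ 6 * n ^ 3 * (t * ((n + 1) * w)))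
            ≤ 288 ^ 6 * 216 * (m ^ 6 * n ^ 3 * ((8 * w * m) * ((2 * n) * w))) := by
              apply Nat.mul_le_mul_left
              apply Nat.mul_le_mul_left
              apply Nat.mul_le_mul ht
              apply Nat.mul_le_mul_right
              omega
          _ = A * (w * w) := by rw [hA, hC₀]; ring
      omega) T hT P hP
    have h5 : L ≤ 4 * A * (w * w) := by
      refine hw3.trans ?_
      have h6 : (w + 1) * (w + 1) ≤ (2 * w) * (2 * w) := Nat.mul_le_mul (by omega) (by omega)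
      calc A * ((w + 1) * (w + 1)) ≤ A * ((2 * w) * (2 * w)) := Nat.mul_le_mul_left _ h6
        _ = 4 * A * (w * w) := by ring
    calc T.card ^ 2 * L ≤ T.card ^ 2 * (4 * A * (w * w)) := Nat.mul_le_mul_left _ h5
      _ = 4 * A * (T.card * w) ^ 2 := by ring
      _ ≤ 4 * A * (36 * m * n * P.leaves) ^ 2 :=
          Nat.mul_le_mul_left _ (Nat.pow_le_pow_left h2 2)
      _ = 36 ^ 2 * 64 * C₀ * m ^ 9 * n ^ 6 * P.leaves ^ 2 := by rw [hA]; ring

/-- A formula without literals is constant. -/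
theorem eval_of_size {V : Type} (F : Fm V) (h : F.size = 0) (x y : V → Bool) :
    F.eval x = F.eval y := by
  induction F with
  | const b => rfl
  | lit v b => simp [Fm.size] at h
  | and F G ihF ihG =>
    simp only [Fm.size, Nat.add_eq_zero_iff] at h
    simp only [Fm.eval, ihF h.1, ihG h.2]
  | or F G ihF ihG =>
    simp only [Fm.size, Nat.add_eq_zero_iff] at h
    simp only [Fm.eval, ihF h.1, ihG h.2]

theorem fsize_pos {n : ℕ} {g : (Fin n → Bool) → Bool} (hg : ∃ x y, g x ≠ g y) : 1 ≤ fsize g := by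
  have hne : {s : ℕ | ∃ F : Fm (Fin n), F.size = s ∧ ∀ x, F.eval x = g x}.Nonempty := by
    obtain ⟨F, _, hF⟩ := comp_all g
    exact ⟨F.size, F, rfl, hF⟩
  obtain ⟨F, hF, he⟩ := Nat.sInf_mem hne
  rw [Nat.one_le_iff_ne_zero]
  intro h0
  obtain ⟨x, y, hxy⟩ := hg
  apply hxy
  rw [← he x, ← he y]
  exact eval_of_size F (hF.trans h0) x y

/-- The lower bound for the generalised Karchmer-Wigderson game of `f ⋄ g`. -/
theorem main_solves {m n : ℕ} {Z : Type} (f : (Fin m → Bool) → Z) (g : (Fin n → Bool) → Bool)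
    (hf : ∃ a b, f a ≠ f b) (hg : ∃ x y, g x ≠ g y)
    (P : Prot (Mat m n) (Mat m n) (Fin m × Fin n)) (hP : Solves f g P) :
    (Set.range f).ncard ^ 2 * fsize g ≤
      36 ^ 2 * 64 * (288 ^ 6 * 216) * m ^ 9 * n ^ 6 * P.leaves ^ 2 := by
  classical
  obtain ⟨x, y, hxy⟩ := hg
  have hg1 : ∃ x, g x = true := by
    cases hx : g x with
    | true => exact ⟨x, hx⟩
    | false =>
      refine ⟨y, ?_⟩
      cases hy : g y with
      | true => rfl
      | false => exact absurd (hx.trans hy.symm) hxy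
  have hg0 : ∃ x, g x = false := by
    cases hx : g x with
    | false => exact ⟨x, hx⟩
    | true =>
      refine ⟨y, ?_⟩
      cases hy : g y with
      | false => rfl
      | true => exact absurd (hx.trans hy.symm) hxy
  set R : Finset Z := Finset.univ.image f with hR
  have hRn : (Set.range f).ncard = R.card := by
    rw [← Set.ncard_coe_finset, hR, Finset.coe_image, Finset.coe_univ, Set.image_univ]
  have hr : ∀ z : Z, ∃ a, z ∈ R → f a = z := by
    intro z
    by_cases hz : z ∈ R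
    · obtain ⟨a, _, ha⟩ := Finset.mem_image.1 hz
      exact ⟨a, fun _ => ha⟩
    · exact ⟨fun _ => false, fun h => absurd h hz⟩
  choose r hr using hr
  set T : Finset (Fin m → Bool) := R.image r with hT
  have hTcard : T.card = R.card := by
    rw [hT]
    apply Finset.card_image_of_injOn
    intro z hz z' hz' h
    rw [← hr z hz, ← hr z' hz', h]
  have hTinj : ∀ a ∈ T, ∀ b ∈ T, f a = f b → a = b := by
    intro a ha b hb hab
    obtain ⟨z, hz, rfl⟩ := Finset.mem_image.1 ha
    obtain ⟨z', hz', rfl⟩ := Finset.mem_image.1 hb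
    rw [hr z hz, hr z' hz'] at hab
    rw [hab]
  have h2 : 2 ≤ T.card := by
    rw [hTcard]
    obtain ⟨a, b, hab⟩ := hf
    exact Finset.one_lt_card.2 ⟨f a, Finset.mem_image_of_mem _ (Finset.mem_univ a), f b,
      Finset.mem_image_of_mem _ (Finset.mem_univ b), hab⟩
  have h3 := main_types g hg1 hg0 T h2 P (by
    intro X Y hX hY hXY
    exact hP X Y (fun h => hXY (hTinj _ hX _ hY h)))
  rw [hRn, ← hTcard]
  exact h3

end Pool.Agent.H.MP_027d00_lc.UComp
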