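import Mathlib

/-!
# Composition with the universal relation: definitions

de Morgan formulas, communication protocols and the (generalised) Karchmer-Wigderson game of a
block composition `f ⋄ g`.
-/

set_option autoImplicit false

namespace Pool.Agent.H.MP_027d00_lc.UComp

/-- de Morgan formulas: constants, literals (`lit v b` is true iff the variable `v` has the value
`b`), fan-in two AND and OR. -/
inductive Fm (V : Type) : Type
  | const (b : Bool)
  | lit (v : V) (b : Bool)
  | and (F G : Fm V)
  | or (F G : Fm V)

/-- The value of a formula. -/
def Fm.eval {V : Type} (x : V → Bool) : Fm V → Bool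
  | .const b => b
  | .lit v b => x v == b
  | .and F G => F.eval x && G.eval x
  | .or F G => F.eval x || G.eval x

/-- The size of a formula: the number of its leaves labelled by literals. -/
def Fm.size {V : Type} : Fm V → ℕ
  | .const _ => 0
  | .lit _ _ => 1
  | .and F G => F.size + G.size
  | .or F G => F.size + G.size

/-- The de Morgan formula size `L(h)` of a Boolean function `h`. -/
noncomputable def fsize {V : Type} (h : (V → Bool) → Bool) : ℕ :=
  sInf {s : ℕ | ∃ F : Fm V, F.size = s ∧ ∀ x, F.eval x = h x}

/-- Deterministic two-party protocols: at an inner node one of the two players sends one bit that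
depends on his input. -/
inductive Prot (A B O : Type) : Type
  | out (o : O)
  | alice (q : A → Bool) (P₀ P₁ : Prot A B O)
  | bob (q : B → Bool) (P₀ P₁ : Prot A B O)

/-- The output of a protocol on the inputs `x` (Alice) and `y` (Bob). -/
def Prot.run {A B O : Type} : Prot A B O → A → B → O
  | .out o, _, _ => o
  | .alice q P₀ P₁, x, y => if q x then P₁.run x y else P₀.run x y
  | .bob q P₀ P₁, x, y => if q y then P₁.run x y else P₀.run x y

/-- The number of leaves of a protocol. -/
def Prot.leaves {A B O : Type} : Prot A B O → ℕ
  | .out _ => 1
  | .alice _ P₀ P₁ => P₀.leaves + P₁.leaves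
  | .bob _ P₀ P₁ => P₀.leaves + P₁.leaves

/-- The depth (worst case number of bits sent) of a protocol. -/
def Prot.depth {A B O : Type} : Prot A B O → ℕ
  | .out _ => 0
  | .alice _ P₀ P₁ => max P₀.depth P₁.depth + 1
  | .bob _ P₀ P₁ => max P₀.depth P₁.depth + 1

/-- Boolean matrices with `m` rows and `n` columns. -/
abbrev Mat (m n : ℕ) : Type := Fin m → Fin n → Bool

/-- The vector of the values of `g` on the rows of `X`. -/
def rows {m n : ℕ} (g : (Fin n → Bool) → Bool) (X : Mat m n) : Fin m → Bool := fun i => g (X i)

/-- `P` solves the (generalised) Karchmer-Wigderson game of the composition `f ⋄ g`: whenever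
`f (g (X₁), ..., g (X_m)) ≠ f (g (Y₁), ..., g (Y_m))`, the output is an entry in which `X` and `Y`
differ. For `f = id` this is the composition of the universal relation with the Karchmer-Wigderson
game of `g`. -/
def Solves {m n : ℕ} {Z : Type} (f : (Fin m → Bool) → Z) (g : (Fin n → Bool) → Bool)
    (P : Prot (Mat m n) (Mat m n) (Fin m × Fin n)) : Prop :=
  ∀ X Y : Mat m n, f (rows g X) ≠ f (rows g Y) →
    X (P.run X Y).1 (P.run X Y).2 ≠ Y (P.run X Y).1 (P.run X Y).2

end Pool.Agent.H.MP_027d00_lc.UComp
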