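import Pool.Agent.H.MP_027d00_lc.ucomp.Hyb

/-!
# Families of matrices whose types are separated by small formulas have small weight
-/

set_option autoImplicit false

open Finset

namespace Pool.Agent.H.MP_027d00_lc.UComp

/-- The types of the matrices in `Q` are separated by formulas of size `c`, and there are at most
`2c` types. -/
structure Good {m n : ℕ} (g : (Fin n → Bool) → Bool) (c : ℕ) (Q : Finset (Mat m n)) : Prop where
  sep : ∀ S : Finset (Fin m → Bool),
    Sep c (Q.filter (fun X => rows g X ∈ S)) (Q.filter (fun X => rows g X ∉ S))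
  card : (Q.image (rows g)).card ≤ 2 * c

/-- The weight of a family of matrices. -/
noncomputable def nu {m n : ℕ} (μ : Bool → (Fin n → Bool) → ℝ) (g : (Fin n → Bool) → Bool)
    (Q : Finset (Mat m n)) : ℝ := ∑ X ∈ Q, W μ (rows g X) X

theorem nu_nonneg {m n : ℕ} {μ : Bool → (Fin n → Bool) → ℝ} {g : (Fin n → Bool) → Bool}
    (h0 : ∀ b x, 0 ≤ μ b x) (Q : Finset (Mat m n)) : 0 ≤ nu μ g Q :=
  Finset.sum_nonneg fun _ _ => W_nonneg h0 _ _

theorem nu_mono {m n : ℕ} {μ : Bool → (Fin n → Bool) → ℝ} {g : (Fin n → Bool) → Bool}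
    (h0 : ∀ b x, 0 ≤ μ b x) {Q R : Finset (Mat m n)} (h : Q ⊆ R) : nu μ g Q ≤ nu μ g R :=
  Finset.sum_le_sum_of_subset_of_nonneg h fun _ _ _ => W_nonneg h0 _ _

theorem nu_union {m n : ℕ} {μ : Bool → (Fin n → Bool) → ℝ} {g : (Fin n → Bool) → Bool}
    (h0 : ∀ b x, 0 ≤ μ b x) (Q R : Finset (Mat m n)) :
    nu μ g (Q ∪ R) ≤ nu μ g Q + nu μ g R := by
  have h1 := Finset.sum_union_inter (s₁ := Q) (s₂ := R) (f := fun X => W μ (rows g X) X)
  have h2 := nu_nonneg (μ := μ) (g := g) h0 (Q ∩ R)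
  unfold nu at *
  linarith

/-- The weight of a good family is small. -/
theorem nu_le {m n s w q : ℕ} {μ : Bool → (Fin n → Bool) → ℝ} {g : (Fin n → Bool) → Bool}
    (h0 : ∀ b x, 0 ≤ μ b x) (h1 : ∀ b, ∑ x, μ b x = 1) {k τ : ℝ} (hk : 1 ≤ k) (hτ : 0 ≤ τ)
    (hE : ∀ h : (Fin n → Bool) → Bool, Comp s h →
      ∑ x, μ true x * ind (h x) ≤ k * ∑ x, μ false x * ind (h x) + τ)
    (hq : 2 * w ≤ 2 ^ q) (hs : q * w ≤ s) {c : ℕ} (hc : c ≤ w) {Q : Finset (Mat m n)}
    (hQ : Good g c Q) : nu μ g Q ≤ k ^ m * (1 + 2 * w * (m * τ)) := by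
  classical
  set Ty : Finset (Fin m → Bool) := Q.image (rows g) with hTy
  have hcard : Ty.card ≤ 2 * w := hQ.card.trans (by omega)
  -- the code
  obtain ⟨e₀⟩ : Nonempty ({a // a ∈ Ty} ↪ (Fin q → Bool)) := by
    apply Function.Embedding.nonempty_of_card_le
    simp only [Fintype.card_coe, Fintype.card_fun, Fintype.card_bool, Fintype.card_fin]
    exact hcard.trans hq
  set e : (Fin m → Bool) → (Fin q → Bool) :=
    fun a => if h : a ∈ Ty then e₀ ⟨a, h⟩ else fun _ => false with he
  have heinj : ∀ a ∈ Ty, ∀ b ∈ Ty, e a = e b → a = b := by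
    intro a ha b hb hab
    simp only [he, dif_pos ha, dif_pos hb] at hab
    have := e₀.injective hab
    simpa using this
  -- the separators
  have hH : ∀ i : Fin q, ∃ H : Mat m n → Bool, CompM w H ∧ ∀ X ∈ Q, H X = e (rows g X) i := by
    intro i
    obtain ⟨H, hH, hH1, hH0⟩ := (hQ.sep (Finset.univ.filter (fun a => e a i = true)))
    refine ⟨H, CompM_iff.2 ((CompM_iff.1 hH).mono hc), fun X hX => ?_⟩
    cases hb : e (rows g X) i with
    | true => exact hH1 X (by simp [hX, hb])
    | false => exact hH0 X (by simp [hX, hb])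
  choose H hHc hHe using hH
  set E : (Fin m → Bool) → Mat m n → Bool :=
    fun a X => decide (∀ i ∈ (Finset.univ : Finset (Fin q)), (H i X == e a i) = true) with hEdef
  have hEc : ∀ a, CompM s (E a) := by
    intro a
    rw [CompM_iff]
    have h2 := Comp.finset_and (Finset.univ : Finset (Fin q))
      (fun i (x : Fin m × Fin n → Bool) => H i (fun i j => x (i, j)) == e a i)
      (fun i _ => (CompM_iff.1 (hHc i)).iff_bool (e a i))
    simp only [Finset.card_univ, Fintype.card_fin] at h2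
    obtain ⟨F, hF, heF⟩ := h2.mono hs
    exact ⟨F, hF, fun x => (heF x).trans (decide_eq_decide.2 Iff.rfl)⟩
  have hE1 : ∀ X ∈ Q, E (rows g X) X = true := by
    intro X hX
    simp only [hEdef, decide_eq_true_eq]
    intro i _
    rw [hHe i X hX]
    simp
  have hEdisj : ∀ X, ∀ a ∈ Ty, ∀ b ∈ Ty, E a X = true → E b X = true → a = b := by
    intro X a ha b hb h2 h3
    simp only [hEdef, decide_eq_true_eq] at h2 h3
    apply heinj a ha b hb
    funext i
    have h4 := h2 i (Finset.mem_univ i)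
    have h5 := h3 i (Finset.mem_univ i)
    simp only [beq_iff_eq] at h4 h5
    rw [← h4, ← h5]
  have hE2 : ∀ X, ∑ a ∈ Ty, ind (E a X) ≤ 1 := by
    intro X
    by_cases hex : ∃ a ∈ Ty, E a X = true
    · obtain ⟨a, ha, haX⟩ := hex
      rw [Finset.sum_eq_single a]
      · exact ind_le_one _
      · intro b hb hba
        have : E b X ≠ true := fun h => hba (hEdisj X b hb a ha h haX)
        simp [ind, this]
      · intro h
        exact absurd ha h
    · push Not at hex
      rw [Finset.sum_eq_zero]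
      · norm_num
      · intro a ha
        have := hex a ha
        simp [ind, this]
  -- the computation
  have step1 : nu μ g Q ≤ ∑ a ∈ Ty, ∑ X, W μ a X * ind (E a X) := by
    unfold nu
    rw [← Finset.sum_fiberwise_of_maps_to (s := Q) (t := Ty) (g := rows g)
      (fun X hX => Finset.mem_image_of_mem _ hX)]
    refine Finset.sum_le_sum fun a _ => ?_
    calc ∑ X ∈ Q with rows g X = a, W μ (rows g X) X
        = ∑ X ∈ Q with rows g X = a, W μ a X * ind (E a X) := by
          refine Finset.sum_congr rfl fun X hX => ?_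
          rw [Finset.mem_filter] at hX
          have h3 := hE1 X hX.1
          rw [hX.2] at h3
          rw [hX.2, h3, ind_true, mul_one]
      _ ≤ ∑ X, W μ a X * ind (E a X) :=
          Finset.sum_le_sum_of_subset_of_nonneg (Finset.subset_univ _)
            fun X _ _ => mul_nonneg (W_nonneg h0 _ _) (ind_nonneg _)
  have hk0 : (0 : ℝ) ≤ k ^ m := by positivity
  have step2 : ∑ a ∈ Ty, ∑ X, W μ a X * ind (E a X) ≤
      ∑ a ∈ Ty, (k ^ m * ∑ X, W μ (fun _ : Fin m => false) X * ind (E a X) + m * k ^ m * τ) :=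
    Finset.sum_le_sum fun a _ => hybrid h0 h1 hk hτ hE m a (E a) (hEc a)
  have step3 : ∑ a ∈ Ty, (k ^ m * ∑ X, W μ (fun _ : Fin m => false) X * ind (E a X) +
      m * k ^ m * τ) = k ^ m * (∑ X, W μ (fun _ : Fin m => false) X * ∑ a ∈ Ty, ind (E a X)) +
        Ty.card * (m * k ^ m * τ) := by
    rw [Finset.sum_add_distrib, Finset.sum_const, nsmul_eq_mul, ← Finset.mul_sum]
    congr 2
    rw [Finset.sum_comm]
    refine Finset.sum_congr rfl fun X _ => ?_
    rw [Finset.mul_sum]
  have step4 : ∑ X, W μ (fun _ : Fin m => false) X * ∑ a ∈ Ty, ind (E a X) ≤ 1 := by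
    rw [← W_sum h1 (fun _ : Fin m => false)]
    refine Finset.sum_le_sum fun X _ => ?_
    have := mul_le_mul_of_nonneg_left (hE2 X) (W_nonneg h0 (fun _ : Fin m => false) X)
    simpa using this
  have hcard' : (Ty.card : ℝ) ≤ 2 * w := by exact_mod_cast hcard
  have step5 : (Ty.card : ℝ) * (m * k ^ m * τ) ≤ 2 * w * (m * k ^ m * τ) :=
    mul_le_mul_of_nonneg_right hcard' (by positivity)
  have step6 := mul_le_mul_of_nonneg_left step4 hk0
  calc nu μ g Q ≤ k ^ m * 1 + 2 * w * (m * k ^ m * τ) := by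
        refine step1.trans (step2.trans ?_)
        rw [step3]
        exact add_le_add step6 step5
    _ = k ^ m * (1 + 2 * w * (m * τ)) := by ring

/-! ### operations on good families -/

theorem Good.empty {m n : ℕ} (g : (Fin n → Bool) → Bool) : Good g 0 (∅ : Finset (Mat m n)) :=
  ⟨fun _ => by simpa using Sep.empty_left 0 ∅, by simp⟩

theorem Good.union {m n : ℕ} {g : (Fin n → Bool) → Bool} {c₀ c₁ l : ℕ} {Q₀ Q₁ : Finset (Mat m n)}
    (h₀ : Good g c₀ Q₀) (h₁ : Good g c₁ Q₁)
    (hx : ∀ S : Finset (Fin m → Bool),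
      Sep l (Q₀.filter (fun X => rows g X ∈ S)) (Q₁.filter (fun X => rows g X ∉ S))) :
    Good g (c₀ + c₁ + 2 * l) (Q₀ ∪ Q₁) := by
  classical
  refine ⟨fun S => ?_, ?_⟩
  · have hx' : Sep l (Q₁.filter (fun X => rows g X ∈ S)) (Q₀.filter (fun X => rows g X ∉ S)) := by
      have h2 := (hx Sᶜ).symm
      refine h2.mono le_rfl ?_ ?_
      · intro X hX
        rw [Finset.mem_filter] at hX ⊢
        exact ⟨hX.1, by simpa using hX.2⟩
      · intro X hX
        rw [Finset.mem_filter] at hX ⊢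
        exact ⟨hX.1, by simpa using hX.2⟩
    rw [Finset.filter_union, Finset.filter_union]
    have h3 := ((h₀.sep S).union_right (hx S)).union_left (hx'.union_right (h₁.sep S))
    exact h3.mono (by omega) (Finset.Subset.refl _) (Finset.Subset.refl _)
  · rw [Finset.image_union]
    have h2 := Finset.card_union_le (Q₀.image (rows g)) (Q₁.image (rows g))
    have h3 := h₀.card
    have h4 := h₁.card
    omega

/-- Three matrices with pairwise different types cannot pairwise differ in one entry. -/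
theorem types_two {m n : ℕ} {g : (Fin n → Bool) → Bool} {D : Finset (Mat m n)} (o : Fin m × Fin n)
    (h : ∀ X ∈ D, ∀ Y ∈ D, rows g X ≠ rows g Y → X o.1 o.2 ≠ Y o.1 o.2) :
    (D.image (rows g)).card ≤ 2 := by
  by_contra hc
  push Not at hc
  obtain ⟨a, b, c, ha, hb, hc', hab, hac, hbc⟩ := Finset.two_lt_card_iff.1 hc
  obtain ⟨X, hX, rfl⟩ := Finset.mem_image.1 ha
  obtain ⟨Y, hY, rfl⟩ := Finset.mem_image.1 hb
  obtain ⟨Z, hZ, rfl⟩ := Finset.mem_image.1 hc'
  have h1 := h X hX Y hY hab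
  have h2 := h X hX Z hZ hac
  have h3 := h Y hY Z hZ hbc
  revert h1 h2 h3
  cases X o.1 o.2 <;> cases Y o.1 o.2 <;> cases Z o.1 o.2 <;> simp

theorem Good.leaf {m n : ℕ} {g : (Fin n → Bool) → Bool} {D : Finset (Mat m n)} (o : Fin m × Fin n)
    (h : ∀ X ∈ D, ∀ Y ∈ D, rows g X ≠ rows g Y → X o.1 o.2 ≠ Y o.1 o.2) : Good g 1 D := by
  refine ⟨fun S => ?_, (types_two o h).trans (by norm_num)⟩
  refine Prot.sep (Prot.out o) _ _ ?_
  intro X hX Y hY
  rw [Finset.mem_filter] at hX hY
  exact h X hX.1 Y hY.1 (fun he => hY.2 (he ▸ hX.2))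

end Pool.Agent.H.MP_027d00_lc.UComp
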