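import Pool.Agent.H.MP_027d00_lc.ucomp.Amp

/-!
# Hard distributions from the minimax theorem
-/

set_option autoImplicit false

open Finset

namespace Pool.Agent.H.MP_027d00_lc.UComp

/-- von Neumann's minimax theorem for a finite matrix game. -/
theorem matrix_game {ι κ : Type} [Fintype ι] [Fintype κ] [Nonempty ι] [Nonempty κ]
    (M : ι → κ → ℝ) (v : ℝ) :
    (∃ q : κ → ℝ, (∀ j, 0 ≤ q j) ∧ ∑ j, q j = 1 ∧ ∀ i, v ≤ ∑ j, q j * M i j) ∨
    (∃ p : ι → ℝ, (∀ i, 0 ≤ p i) ∧ ∑ i, p i = 1 ∧ ∀ j, ∑ i, p i * M i j ≤ v) := by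
  classical
  set f : (ι → ℝ) → (κ → ℝ) → ℝ := fun p q => ∑ i, p i * ∑ j, q j * M i j with hf
  have hf' : ∀ p q, f p q = ∑ j, q j * ∑ i, p i * M i j := by
    intro p q
    simp only [hf]
    simp only [Finset.mul_sum]
    rw [Finset.sum_comm]
    refine Finset.sum_congr rfl fun j _ => Finset.sum_congr rfl fun i _ => by ring
  have hlin1 : ∀ (q : κ → ℝ) (x y : ι → ℝ) (a b : ℝ), f (a • x + b • y) q = a • f x q + b • f y q := by
    intro q x y a b
    simp only [hf, Pi.add_apply, Pi.smul_apply, smul_eq_mul, add_mul, Finset.sum_add_distrib,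
      Finset.mul_sum (s := (Finset.univ : Finset ι)), mul_assoc]
  have hlin2 : ∀ (p : ι → ℝ) (x y : κ → ℝ) (a b : ℝ), f p (a • x + b • y) = a • f p x + b • f p y := by
    intro p x y a b
    simp only [hf', Pi.add_apply, Pi.smul_apply, smul_eq_mul, add_mul, Finset.sum_add_distrib,
      Finset.mul_sum (s := (Finset.univ : Finset κ)), mul_assoc]
  have hc1 : ∀ q : κ → ℝ, Continuous (fun p : ι → ℝ => f p q) := by
    intro q
    simp only [hf]
    fun_prop
  have hc2 : ∀ p : ι → ℝ, Continuous (fun q : κ → ℝ => f p q) := by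
    intro p
    simp only [hf]
    fun_prop
  obtain ⟨i₀⟩ := ‹Nonempty ι›
  obtain ⟨j₀⟩ := ‹Nonempty κ›
  obtain ⟨a, ha, b, hb, hs⟩ := Sion.exists_isSaddlePointOn (X := stdSimplex ℝ ι) (Y := stdSimplex ℝ κ)
    (f := f) ⟨_, single_mem_stdSimplex ℝ i₀⟩ (convex_stdSimplex ℝ ι) (isCompact_stdSimplex ℝ ι)
    (fun q _ => (hc1 q).lowerSemicontinuous.lowerSemicontinuousOn _)
    (fun q _ => ConvexOn.quasiconvexOn ⟨convex_stdSimplex ℝ ι, fun x _ y _ a b _ _ _ =>
      (hlin1 q x y a b).le⟩)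
    (convex_stdSimplex ℝ κ) ⟨_, single_mem_stdSimplex ℝ j₀⟩ (isCompact_stdSimplex ℝ κ)
    (fun p _ => (hc2 p).upperSemicontinuous.upperSemicontinuousOn _)
    (fun p _ => ConcaveOn.quasiconcaveOn ⟨convex_stdSimplex ℝ κ, fun x _ y _ a b _ _ _ =>
      (hlin2 p x y a b).ge⟩)
  rcases le_total v (f a b) with hv | hv
  · left
    refine ⟨b, hb.1, hb.2, fun i => ?_⟩
    have h1 := hs (Pi.single i 1) (single_mem_stdSimplex ℝ i) b hb
    have h2 : f (Pi.single i 1) b = ∑ j, b j * M i j := by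
      simp only [hf, Pi.single_apply, ite_mul, one_mul, zero_mul, Finset.sum_ite_eq',
        Finset.mem_univ, if_true]
    rw [h2] at h1
    exact hv.trans h1
  · right
    refine ⟨a, ha.1, ha.2, fun j => ?_⟩
    have h1 := hs a ha (Pi.single j 1) (single_mem_stdSimplex ℝ j)
    have h2 : f a (Pi.single j 1) = ∑ i, a i * M i j := by
      simp only [hf', Pi.single_apply, ite_mul, one_mul, zero_mul, Finset.sum_ite_eq',
        Finset.mem_univ, if_true]
    rw [h2] at h1
    exact h1.trans hv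

/-- Hard distributions on `g⁻¹(1)` and `g⁻¹(0)`. -/
theorem exists_hard {n m s : ℕ} (hm : 1 ≤ m) (g : (Fin n → Bool) → Bool)
    (hg1 : ∃ x, g x = true) (hg0 : ∃ x, g x = false) {τ : ℝ} (hτ : 0 < τ) (hτ1 : τ ≤ 1)
    (hL : ∀ t : ℕ, (t : ℝ) * τ ≤ 1 → ¬ Comp (288 ^ 6 * 216 * (m ^ 6 * n ^ 3 * (t * s))) g) :
    ∃ μ : Bool → (Fin n → Bool) → ℝ, (∀ b x, 0 ≤ μ b x) ∧ (∀ b, ∑ x, μ b x = 1) ∧
      (∀ b x, μ b x ≠ 0 → g x = b) ∧
      ∀ h : (Fin n → Bool) → Bool, Comp s h →
        ∑ x, μ true x * ind (h x) ≤ (1 + 1 / (8 * (m : ℝ))) * ∑ x, μ false x * ind (h x) + τ := by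
  classical
  have : Nonempty ({x // g x = true} × {y // g y = false}) := by
    obtain ⟨x, hx⟩ := hg1
    obtain ⟨y, hy⟩ := hg0
    exact ⟨(⟨x, hx⟩, ⟨y, hy⟩)⟩
  have : Nonempty {h : (Fin n → Bool) → Bool // Comp s h} := ⟨⟨fun _ => false, Comp.const s false⟩⟩
  have : Fintype {h : (Fin n → Bool) → Bool // Comp s h} := Fintype.ofFinite _
  rcases matrix_game (fun (i : {x // g x = true} × {y // g y = false})
    (h : {h : (Fin n → Bool) → Bool // Comp s h}) =>
      ind (h.1 i.1.1) - (1 + 1 / (8 * (m : ℝ))) * ind (h.1 i.2.1)) τ with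
    ⟨q, hq0, hq1, hq⟩ | ⟨p, hp0, hp1, hp⟩
  · exfalso
    have hR : Rnd s (fun x => ∑ h : {h : (Fin n → Bool) → Bool // Comp s h}, q h * ind (h.1 x)) :=
      ⟨{h : (Fin n → Bool) → Bool // Comp s h}, inferInstance, q, fun h => h.1, hq0, hq1,
        fun h => h.2, fun x => rfl⟩
    obtain ⟨t, ht, hc⟩ := hR.amplify hm g hg1 hg0 hτ hτ1 (by
      intro x y hx hy
      have h1 := hq (⟨x, hx⟩, ⟨y, hy⟩)
      simp only at h1
      have h2 : ∑ h : {h : (Fin n → Bool) → Bool // Comp s h},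
          q h * (ind (h.1 x) - (1 + 1 / (8 * (m : ℝ))) * ind (h.1 y)) =
          ∑ h : {h : (Fin n → Bool) → Bool // Comp s h}, q h * ind (h.1 x) -
            (1 + 1 / (8 * (m : ℝ))) *
              ∑ h : {h : (Fin n → Bool) → Bool // Comp s h}, q h * ind (h.1 y) := by
        rw [Finset.mul_sum, ← Finset.sum_sub_distrib]
        refine Finset.sum_congr rfl fun h _ => by ring
      rw [h2] at h1
      linarith)
    exact hL t ht hc
  · set pt : Bool → ({x // g x = true} × {y // g y = false}) → (Fin n → Bool) :=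
      fun b i => if b = true then i.1.1 else i.2.1 with hpt
    have hpt' : ∀ b i, g (pt b i) = b := by
      intro b i
      cases b with
      | true => simpa [hpt] using i.1.2
      | false => simpa [hpt] using i.2.2
    set μ : Bool → (Fin n → Bool) → ℝ := fun b x => ∑ i, if pt b i = x then p i else 0 with hμ
    have hE : ∀ (b : Bool) (G : (Fin n → Bool) → ℝ), ∑ x, μ b x * G x = ∑ i, p i * G (pt b i) := by
      intro b G
      simp only [hμ, Finset.sum_mul]
      rw [Finset.sum_comm]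
      refine Finset.sum_congr rfl fun i _ => ?_
      simp only [ite_mul, zero_mul, Finset.sum_ite_eq, Finset.mem_univ, if_true]
    refine ⟨μ, ?_, ?_, ?_, ?_⟩
    · intro b x
      exact Finset.sum_nonneg fun i _ => by split_ifs; exacts [hp0 i, le_rfl]
    · intro b
      have := hE b (fun _ => 1)
      simpa [hp1] using this
    · intro b x hx
      obtain ⟨i, _, hi⟩ := Finset.exists_ne_zero_of_sum_ne_zero hx
      have : pt b i = x := by
        by_contra hne
        exact hi (by simp [hne])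
      rw [← this]
      exact hpt' b i
    · intro h hh
      rw [hE, hE]
      have h1 := hp ⟨h, hh⟩
      simp only at h1
      have h2 : ∑ i, p i * (ind (h i.1.1) - (1 + 1 / (8 * (m : ℝ))) * ind (h i.2.1)) =
          ∑ i, p i * ind (h (pt true i)) - (1 + 1 / (8 * (m : ℝ))) *
            ∑ i, p i * ind (h (pt false i)) := by
        rw [Finset.mul_sum, ← Finset.sum_sub_distrib]
        refine Finset.sum_congr rfl fun i _ => by simp only [hpt]; simp; ring
      rw [h2] at h1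
      linarith

end Pool.Agent.H.MP_027d00_lc.UComp
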