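import Pool.Agent.H.MP_027d00_lc.ucomp.Hard

/-!
# The hybrid argument for product distributions
-/

set_option autoImplicit false

open Finset

namespace Pool.Agent.H.MP_027d00_lc.UComp

/-- Substitution of variables or constants for the variables. -/
def substF {V W : Type} (σ : V → W ⊕ Bool) : Fm V → Fm W
  | .const b => .const b
  | .lit v b => match σ v with
    | .inl w => .lit w b
    | .inr c => .const (c == b)
  | .and F G => .and (substF σ F) (substF σ G)
  | .or F G => .or (substF σ F) (substF σ G)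

theorem substF_size {V W : Type} (σ : V → W ⊕ Bool) (F : Fm V) :
    (substF σ F).size ≤ F.size := by
  induction F with
  | const b => exact le_rfl
  | lit v b =>
    simp only [substF]
    cases σ v <;> simp [Fm.size]
  | and F G ihF ihG => exact Nat.add_le_add ihF ihG
  | or F G ihF ihG => exact Nat.add_le_add ihF ihG

theorem substF_eval {V W : Type} (σ : V → W ⊕ Bool) (F : Fm V) (y : W → Bool) :
    (substF σ F).eval y = F.eval (fun v => Sum.elim y id (σ v)) := by
  induction F with
  | const b => rfl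
  | lit v b =>
    simp only [substF, Fm.eval]
    cases σ v <;> simp [Fm.eval]
  | and F G ihF ihG => simp [substF, Fm.eval, ihF, ihG]
  | or F G ihF ihG => simp [substF, Fm.eval, ihF, ihG]

theorem Comp.subst {V W : Type} {s : ℕ} {h : (V → Bool) → Bool} (hh : Comp s h)
    (σ : V → W ⊕ Bool) : Comp s (fun y : W → Bool => h (fun v => Sum.elim y id (σ v))) := by
  obtain ⟨F, hF, he⟩ := hh
  exact ⟨substF σ F, (substF_size σ F).trans hF, fun y => by rw [substF_eval, he]⟩

theorem CompM.head {m n s : ℕ} {h : Mat (m + 1) n → Bool} (hh : CompM s h) (Y : Mat m n) :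
    Comp s (fun x : Fin n → Bool => h (Fin.cons x Y)) := by
  have h1 := (CompM_iff.1 hh).subst (W := Fin n)
    (fun v => Fin.cases (motive := fun _ => Fin n ⊕ Bool) (Sum.inl v.2)
      (fun i => Sum.inr (Y i v.2)) v.1)
  have e : (fun x : Fin n → Bool => h (Fin.cons x Y)) = fun y : Fin n → Bool =>
      h (fun i j => Sum.elim y id (Fin.cases (motive := fun _ => Fin n ⊕ Bool) (Sum.inl j)
      (fun i => Sum.inr (Y i j)) i)) := by
    funext x
    congr 1
    funext i j
    refine Fin.cases ?_ (fun i => ?_) i <;> simp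
  rw [e]
  exact h1

theorem CompM.tail {m n s : ℕ} {h : Mat (m + 1) n → Bool} (hh : CompM s h) (x : Fin n → Bool) :
    CompM s (fun Y : Mat m n => h (Fin.cons x Y)) := by
  rw [CompM_iff]
  have h1 := (CompM_iff.1 hh).subst (W := Fin m × Fin n)
    (fun v => Fin.cases (motive := fun _ => (Fin m × Fin n) ⊕ Bool) (Sum.inr (x v.2))
      (fun i => Sum.inl (i, v.2)) v.1)
  have e : (fun z : Fin m × Fin n → Bool => h (Fin.cons x (fun i j => z (i, j)))) =
      fun y : Fin m × Fin n → Bool =>
      h (fun i j => Sum.elim y id (Fin.cases (motive := fun _ => (Fin m × Fin n) ⊕ Bool)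
        (Sum.inr (x j)) (fun i => Sum.inl (i, j)) i)) := by
    funext z
    congr 1
    funext i j
    refine Fin.cases ?_ (fun i => ?_) i <;> simp
  rw [e]
  exact h1

/-- The product distribution on matrices. -/
noncomputable def W {m n : ℕ} (μ : Bool → (Fin n → Bool) → ℝ) (a : Fin m → Bool)
    (X : Mat m n) : ℝ := ∏ i, μ (a i) (X i)

theorem W_nonneg {m n : ℕ} {μ : Bool → (Fin n → Bool) → ℝ} (h0 : ∀ b x, 0 ≤ μ b x)
    (a : Fin m → Bool) (X : Mat m n) : 0 ≤ W μ a X :=
  Finset.prod_nonneg fun _ _ => h0 _ _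

theorem W_supp {m n : ℕ} {μ : Bool → (Fin n → Bool) → ℝ} {g : (Fin n → Bool) → Bool}
    (hs : ∀ b x, μ b x ≠ 0 → g x = b) {a : Fin m → Bool} {X : Mat m n} (h : W μ a X ≠ 0) :
    rows g X = a := by
  funext i
  exact hs _ _ (fun hz => h (Finset.prod_eq_zero (Finset.mem_univ i) hz))

theorem sum_cons {m n : ℕ} (μ : Bool → (Fin n → Bool) → ℝ) (a : Fin (m + 1) → Bool)
    (G : Mat (m + 1) n → ℝ) : ∑ X, W μ a X * G X =
      ∑ x, μ (a 0) x * ∑ Y : Mat m n, W μ (fun i => a i.succ) Y * G (Fin.cons x Y) := by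
  rw [← (Fin.consEquiv (fun _ : Fin (m + 1) => Fin n → Bool)).sum_comp, Fintype.sum_prod_type]
  refine Finset.sum_congr rfl fun x _ => ?_
  rw [Finset.mul_sum]
  refine Finset.sum_congr rfl fun Y _ => ?_
  have h1 : (Fin.consEquiv (fun _ : Fin (m + 1) => Fin n → Bool)) (x, Y) =
      (Fin.cons x Y : Mat (m + 1) n) := rfl
  rw [h1]
  have h2 : W μ a (Fin.cons x Y : Mat (m + 1) n) = μ (a 0) x * W μ (fun i => a i.succ) Y := by
    unfold W
    rw [Fin.prod_univ_succ]
    simp
  rw [h2]
  ring

theorem W_sum {n : ℕ} {μ : Bool → (Fin n → Bool) → ℝ} (h1 : ∀ b, ∑ x, μ b x = 1) :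
    ∀ {m : ℕ} (a : Fin m → Bool), ∑ X, W μ a X = 1 := by
  intro m
  induction m with
  | zero =>
    intro a
    simp [W]
  | succ m ih =>
    intro a
    have h2 := sum_cons μ a (fun _ => 1)
    simp only [mul_one] at h2
    rw [h2]
    simp only [ih, mul_one, h1]

/-- The hybrid argument. -/
theorem hybrid {n s : ℕ} {μ : Bool → (Fin n → Bool) → ℝ} (h0 : ∀ b x, 0 ≤ μ b x)
    (h1 : ∀ b, ∑ x, μ b x = 1) {k τ : ℝ} (hk : 1 ≤ k) (hτ : 0 ≤ τ)
    (hE : ∀ h : (Fin n → Bool) → Bool, Comp s h →
      ∑ x, μ true x * ind (h x) ≤ k * ∑ x, μ false x * ind (h x) + τ) :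
    ∀ (m : ℕ) (a : Fin m → Bool) (h : Mat m n → Bool), CompM s h →
      ∑ X, W μ a X * ind (h X) ≤
        k ^ m * ∑ X, W μ (fun _ : Fin m => false) X * ind (h X) + m * k ^ m * τ := by
  intro m
  induction m with
  | zero =>
    intro a h _
    have : a = fun _ => false := funext fun i => i.elim0
    rw [this]
    simp
  | succ m ih =>
    intro a h hh
    -- one row, any value
    have hE' : ∀ (b : Bool) (h : (Fin n → Bool) → Bool), Comp s h →
        ∑ x, μ b x * ind (h x) ≤ k * ∑ x, μ false x * ind (h x) + τ := by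
      intro b h hh
      cases b with
      | true => exact hE h hh
      | false =>
        have : 0 ≤ ∑ x, μ false x * ind (h x) :=
          Finset.sum_nonneg fun x _ => mul_nonneg (h0 _ _) (ind_nonneg _)
        nlinarith
    have hkm : (1 : ℝ) ≤ k ^ m := one_le_pow₀ hk
    have e1 : ∑ X, W μ a X * ind (h X) ≤ ∑ x, μ (a 0) x *
        (k ^ m * ∑ Y : Mat m n, W μ (fun _ : Fin m => false) Y * ind (h (Fin.cons x Y)) +
          m * k ^ m * τ) := by
      rw [sum_cons]
      exact Finset.sum_le_sum fun x _ =>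
        mul_le_mul_of_nonneg_left (ih _ _ (hh.tail x)) (h0 _ _)
    have e2 : ∑ x, μ (a 0) x *
        (k ^ m * ∑ Y : Mat m n, W μ (fun _ : Fin m => false) Y * ind (h (Fin.cons x Y)) +
          m * k ^ m * τ) = k ^ m * (∑ Y : Mat m n, W μ (fun _ : Fin m => false) Y *
            ∑ x, μ (a 0) x * ind (h (Fin.cons x Y))) + m * k ^ m * τ := by
      simp only [mul_add, Finset.sum_add_distrib]
      rw [← Finset.sum_mul, h1, one_mul]
      congr 1
      simp only [Finset.mul_sum]
      rw [Finset.sum_comm]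
      refine Finset.sum_congr rfl fun Y _ => Finset.sum_congr rfl fun x _ => by ring
    have e3 : ∑ Y : Mat m n, W μ (fun _ : Fin m => false) Y *
        ∑ x, μ (a 0) x * ind (h (Fin.cons x Y)) ≤
        ∑ Y : Mat m n, W μ (fun _ : Fin m => false) Y *
          (k * ∑ x, μ false x * ind (h (Fin.cons x Y)) + τ) :=
      Finset.sum_le_sum fun Y _ =>
        mul_le_mul_of_nonneg_left (hE' _ _ (hh.head Y)) (W_nonneg h0 _ _)
    have e4 : ∑ Y : Mat m n, W μ (fun _ : Fin m => false) Y *
          (k * ∑ x, μ false x * ind (h (Fin.cons x Y)) + τ) =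
          k * ∑ X, W μ (fun _ : Fin (m + 1) => false) X * ind (h X) + τ := by
      rw [sum_cons]
      simp only [mul_add, Finset.sum_add_distrib]
      rw [← Finset.sum_mul, W_sum h1, one_mul]
      congr 1
      simp only [Finset.mul_sum]
      rw [Finset.sum_comm]
      refine Finset.sum_congr rfl fun x _ => Finset.sum_congr rfl fun Y _ => by ring
    have e5 := mul_le_mul_of_nonneg_left (e3.trans e4.le) (by linarith : (0 : ℝ) ≤ k ^ m)
    have hkm' : k ^ m ≤ k ^ (m + 1) := pow_le_pow_right₀ hk (Nat.le_succ m)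
    rw [e2] at e1
    refine e1.trans ?_
    push_cast
    have e6 : k ^ m * τ ≤ k ^ (m + 1) * τ := mul_le_mul_of_nonneg_right hkm' hτ
    have e7 : (m : ℝ) * (k ^ m * τ) ≤ m * (k ^ (m + 1) * τ) :=
      mul_le_mul_of_nonneg_left e6 (by positivity)
    have e8 : k ^ m * (k * ∑ X, W μ (fun _ : Fin (m + 1) => false) X * ind (h X) + τ) =
        k ^ (m + 1) * ∑ X, W μ (fun _ : Fin (m + 1) => false) X * ind (h X) + k ^ m * τ := by
      rw [pow_succ]; ring
    rw [e8] at e5
    nlinarith

end Pool.Agent.H.MP_027d00_lc.UComp
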