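import Pool.Agent.H.MP_027d00_lc.ucomp.Good

/-!
# The induction over the protocol tree
-/

set_option autoImplicit false

open Finset

namespace Pool.Agent.H.MP_027d00_lc.UComp

/-- The conclusion of the tree induction for a family `D` at a node with `l` leaves. -/
def Node {m n : ℕ} (μ : Bool → (Fin n → Bool) → ℝ) (g : (Fin n → Bool) → Bool) (w : ℕ) (α : ℝ)
    (l : ℕ) (D : Finset (Mat m n)) : Prop :=
  ∃ (Q : Finset (Mat m n)) (c : ℕ), Q ⊆ D ∧ c ≤ w ∧ Good g c Q ∧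
    nu μ g (D \ Q) + α * c ≤ α * (l * (1 + 2 * (Nat.log 2 D.card : ℝ)))

theorem Node.mono {m n : ℕ} {μ : Bool → (Fin n → Bool) → ℝ} {g : (Fin n → Bool) → Bool} {w : ℕ}
    {α : ℝ} (hα : 0 ≤ α) {l l' : ℕ} (hl : l ≤ l') {D : Finset (Mat m n)}
    (h : Node μ g w α l D) : Node μ g w α l' D := by
  obtain ⟨Q, c, hQ, hc, hG, h1⟩ := h
  refine ⟨Q, c, hQ, hc, hG, h1.trans (mul_le_mul_of_nonneg_left ?_ hα)⟩
  have : (l : ℝ) ≤ l' := by exact_mod_cast hl
  exact mul_le_mul_of_nonneg_right this (by positivity)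

theorem Node.leaf {m n : ℕ} {μ : Bool → (Fin n → Bool) → ℝ} {g : (Fin n → Bool) → Bool} {w : ℕ}
    {α : ℝ} (hα : 0 ≤ α) (hw : 1 ≤ w) {D : Finset (Mat m n)} (o : Fin m × Fin n)
    (h : ∀ X ∈ D, ∀ Y ∈ D, rows g X ≠ rows g Y → X o.1 o.2 ≠ Y o.1 o.2) : Node μ g w α 1 D := by
  refine ⟨D, 1, Finset.Subset.refl _, hw, Good.leaf o h, ?_⟩
  rw [Finset.sdiff_self]
  have h1 : nu μ g (∅ : Finset (Mat m n)) = 0 := by simp [nu]
  rw [h1, zero_add]
  refine mul_le_mul_of_nonneg_left ?_ hα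
  push_cast
  have : (0 : ℝ) ≤ (Nat.log 2 D.card : ℝ) := by positivity
  linarith

theorem Node.merge {m n : ℕ} {μ : Bool → (Fin n → Bool) → ℝ} (h0 : ∀ b x, 0 ≤ μ b x)
    {g : (Fin n → Bool) → Bool} {w : ℕ} (hw : 1 ≤ w) {K : ℝ} (hK0 : 0 ≤ K)
    (hK : ∀ (c : ℕ) (Q : Finset (Mat m n)), c ≤ w → Good g c Q → nu μ g Q ≤ K)
    {l₀ l₁ : ℕ} {D₀ D₁ : Finset (Mat m n)} (hd : Disjoint D₀ D₁) (hcard : D₀.card ≤ D₁.card)
    (n₀ : Node μ g w (2 * K / w) l₀ D₀) (n₁ : Node μ g w (2 * K / w) l₁ D₁)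
    (hx : ∀ S : Finset (Fin m → Bool),
      Sep l₀ (D₀.filter (fun X => rows g X ∈ S)) (D₁.filter (fun X => rows g X ∉ S))) :
    Node μ g w (2 * K / w) (l₀ + l₁) (D₀ ∪ D₁) := by
  classical
  have hwR : (0 : ℝ) < w := by exact_mod_cast hw
  have hα : 0 ≤ 2 * K / w := by positivity
  have hαw : 2 * K / w * w = 2 * K := by field_simp
  rcases D₀.eq_empty_or_nonempty with hD | hD
  · subst hD
    rw [Finset.empty_union]
    exact n₁.mono hα (by omega)
  obtain ⟨Q₀, c₀, hQ₀, hc₀, hG₀, e₀⟩ := n₀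
  obtain ⟨Q₁, c₁, hQ₁, hc₁, hG₁, e₁⟩ := n₁
  set α : ℝ := 2 * K / w with hαdef
  have hpos₀ : 0 < D₀.card := Finset.card_pos.2 hD
  have hcardU : (D₀ ∪ D₁).card = D₀.card + D₁.card := Finset.card_union_of_disjoint hd
  -- logarithms
  have lg0 : Nat.log 2 D₀.card + 1 ≤ Nat.log 2 (D₀ ∪ D₁).card := by
    rw [← Nat.log_mul_base (by norm_num) (by omega)]
    apply Nat.log_mono_right
    omega
  have lg1 : Nat.log 2 D₁.card ≤ Nat.log 2 (D₀ ∪ D₁).card := by
    apply Nat.log_mono_right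
    omega
  have lg0' : (Nat.log 2 D₀.card : ℝ) + 1 ≤ (Nat.log 2 (D₀ ∪ D₁).card : ℝ) := by
    exact_mod_cast lg0
  have lg1' : (Nat.log 2 D₁.card : ℝ) ≤ (Nat.log 2 (D₀ ∪ D₁).card : ℝ) := by
    exact_mod_cast lg1
  have hpot : (l₀ : ℝ) * (1 + 2 * (Nat.log 2 D₀.card : ℝ)) +
      l₁ * (1 + 2 * (Nat.log 2 D₁.card : ℝ)) + 2 * l₀ ≤
      ((l₀ + l₁ : ℕ) : ℝ) * (1 + 2 * (Nat.log 2 (D₀ ∪ D₁).card : ℝ)) := by
    push_cast
    have h2 : (l₀ : ℝ) * ((Nat.log 2 D₀.card : ℝ) + 1) ≤ l₀ * (Nat.log 2 (D₀ ∪ D₁).card : ℝ) :=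
      mul_le_mul_of_nonneg_left lg0' (by positivity)
    have h3 : (l₁ : ℝ) * (Nat.log 2 D₁.card : ℝ) ≤ l₁ * (Nat.log 2 (D₀ ∪ D₁).card : ℝ) :=
      mul_le_mul_of_nonneg_left lg1' (by positivity)
    nlinarith
  have hpot' := mul_le_mul_of_nonneg_left hpot hα
  rw [mul_add, mul_add] at hpot'
  have hx' : ∀ S : Finset (Fin m → Bool),
      Sep l₀ (Q₀.filter (fun X => rows g X ∈ S)) (Q₁.filter (fun X => rows g X ∉ S)) := fun S =>
    (hx S).mono le_rfl (Finset.filter_subset_filter _ hQ₀) (Finset.filter_subset_filter _ hQ₁)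
  by_cases hcw : c₀ + c₁ + 2 * l₀ ≤ w
  · refine ⟨Q₀ ∪ Q₁, c₀ + c₁ + 2 * l₀, Finset.union_subset_union hQ₀ hQ₁, hcw,
      hG₀.union hG₁ hx', ?_⟩
    have h2 : nu μ g ((D₀ ∪ D₁) \ (Q₀ ∪ Q₁)) ≤ nu μ g (D₀ \ Q₀) + nu μ g (D₁ \ Q₁) := by
      refine (nu_mono h0 ?_).trans (nu_union h0 _ _)
      intro X hX
      simp only [Finset.mem_sdiff, Finset.mem_union, not_or] at hX ⊢
      tauto
    have h3 : α * ((c₀ + c₁ + 2 * l₀ : ℕ) : ℝ) = α * c₀ + α * c₁ + α * (2 * l₀) := by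
      push_cast; ring
    rw [h3]
    linarith
  · push Not at hcw
    refine ⟨∅, 0, Finset.empty_subset _, Nat.zero_le _, Good.empty g, ?_⟩
    rw [Finset.sdiff_empty]
    have h2 : nu μ g (D₀ ∪ D₁) ≤ nu μ g D₀ + nu μ g D₁ := nu_union h0 _ _
    have h3 : nu μ g D₀ ≤ nu μ g (D₀ \ Q₀) + nu μ g Q₀ := by
      refine (nu_mono h0 ?_).trans (nu_union h0 _ _)
      intro X hX
      simp only [Finset.mem_sdiff, Finset.mem_union]
      tauto
    have h4 : nu μ g D₁ ≤ nu μ g (D₁ \ Q₁) + nu μ g Q₁ := by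
      refine (nu_mono h0 ?_).trans (nu_union h0 _ _)
      intro X hX
      simp only [Finset.mem_sdiff, Finset.mem_union]
      tauto
    have h5 := hK c₀ Q₀ hc₀ hG₀
    have h6 := hK c₁ Q₁ hc₁ hG₁
    have h7 : (w : ℝ) ≤ c₀ + c₁ + 2 * l₀ := by exact_mod_cast hcw.le
    have h8 := mul_le_mul_of_nonneg_left h7 hα
    rw [mul_add, mul_add, hαw] at h8
    rw [Nat.cast_zero, mul_zero, add_zero]
    linarith

/-- The induction over the protocol. -/
theorem tree {m n : ℕ} {μ : Bool → (Fin n → Bool) → ℝ} (h0 : ∀ b x, 0 ≤ μ b x)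
    {g : (Fin n → Bool) → Bool} {w : ℕ} (hw : 1 ≤ w) {K : ℝ} (hK0 : 0 ≤ K)
    (hK : ∀ (c : ℕ) (Q : Finset (Mat m n)), c ≤ w → Good g c Q → nu μ g Q ≤ K)
    (P : Prot (Mat m n) (Mat m n) (Fin m × Fin n)) :
    ∀ A B : Finset (Mat m n),
      (∀ X ∈ A, ∀ Y ∈ B, rows g X ≠ rows g Y →
        X (P.run X Y).1 (P.run X Y).2 ≠ Y (P.run X Y).1 (P.run X Y).2) →
      Node μ g w (2 * K / w) P.leaves (A ∩ B) := by
  classical
  have hwR : (0 : ℝ) < w := by exact_mod_cast hw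
  have hα : 0 ≤ 2 * K / w := by positivity
  induction P with
  | out o =>
    intro A B h
    refine Node.leaf hα hw o ?_
    intro X hX Y hY hXY
    rw [Finset.mem_inter] at hX hY
    exact h X hX.1 Y hY.2 hXY
  | alice q P₀ P₁ ih₀ ih₁ =>
    intro A B h
    set A₀ := A.filter (fun X => q X = false) with hA₀
    set A₁ := A.filter (fun X => q X = true) with hA₁
    have e : A ∩ B = (A₀ ∩ B) ∪ (A₁ ∩ B) := by
      ext X
      simp only [hA₀, hA₁, Finset.mem_inter, Finset.mem_union, Finset.mem_filter]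
      cases q X <;> simp
    have hd : Disjoint (A₀ ∩ B) (A₁ ∩ B) := by
      rw [Finset.disjoint_left]
      intro X hX hX'
      simp only [hA₀, hA₁, Finset.mem_inter, Finset.mem_filter] at hX hX'
      rw [hX.1.2] at hX'
      exact absurd hX'.1.2 (by simp)
    have s₀ : ∀ X ∈ A₀, ∀ Y ∈ B, rows g X ≠ rows g Y →
        X (P₀.run X Y).1 (P₀.run X Y).2 ≠ Y (P₀.run X Y).1 (P₀.run X Y).2 := by
      intro X hX Y hY hXY
      rw [hA₀, Finset.mem_filter] at hX
      simpa [Prot.run, hX.2] using h X hX.1 Y hY hXY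
    have s₁ : ∀ X ∈ A₁, ∀ Y ∈ B, rows g X ≠ rows g Y →
        X (P₁.run X Y).1 (P₁.run X Y).2 ≠ Y (P₁.run X Y).1 (P₁.run X Y).2 := by
      intro X hX Y hY hXY
      rw [hA₁, Finset.mem_filter] at hX
      simpa [Prot.run, hX.2] using h X hX.1 Y hY hXY
    have x₀ : ∀ S : Finset (Fin m → Bool), Sep P₀.leaves
        ((A₀ ∩ B).filter (fun X => rows g X ∈ S)) ((A₁ ∩ B).filter (fun X => rows g X ∉ S)) := by
      intro S
      refine P₀.sep _ _ ?_
      intro X hX Y hY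
      simp only [Finset.mem_filter, Finset.mem_inter] at hX hY
      exact s₀ X hX.1.1 Y hY.1.2 (fun he => hY.2 (he ▸ hX.2))
    have x₁ : ∀ S : Finset (Fin m → Bool), Sep P₁.leaves
        ((A₁ ∩ B).filter (fun X => rows g X ∈ S)) ((A₀ ∩ B).filter (fun X => rows g X ∉ S)) := by
      intro S
      refine P₁.sep _ _ ?_
      intro X hX Y hY
      simp only [Finset.mem_filter, Finset.mem_inter] at hX hY
      exact s₁ X hX.1.1 Y hY.1.2 (fun he => hY.2 (he ▸ hX.2))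
    rw [e]
    rcases le_total (A₀ ∩ B).card (A₁ ∩ B).card with hle | hle
    · exact Node.merge h0 hw hK0 hK hd hle (ih₀ A₀ B s₀) (ih₁ A₁ B s₁) x₀
    · have := Node.merge h0 hw hK0 hK hd.symm hle (ih₁ A₁ B s₁) (ih₀ A₀ B s₀) x₁
      rw [Finset.union_comm, Nat.add_comm] at this
      exact this
  | bob q P₀ P₁ ih₀ ih₁ =>
    intro A B h
    set B₀ := B.filter (fun X => q X = false) with hB₀
    set B₁ := B.filter (fun X => q X = true) with hB₁
    have e : A ∩ B = (A ∩ B₀) ∪ (A ∩ B₁) := by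
      ext X
      simp only [hB₀, hB₁, Finset.mem_inter, Finset.mem_union, Finset.mem_filter]
      cases q X <;> simp
    have hd : Disjoint (A ∩ B₀) (A ∩ B₁) := by
      rw [Finset.disjoint_left]
      intro X hX hX'
      simp only [hB₀, hB₁, Finset.mem_inter, Finset.mem_filter] at hX hX'
      rw [hX.2.2] at hX'
      exact absurd hX'.2.2 (by simp)
    have s₀ : ∀ X ∈ A, ∀ Y ∈ B₀, rows g X ≠ rows g Y →
        X (P₀.run X Y).1 (P₀.run X Y).2 ≠ Y (P₀.run X Y).1 (P₀.run X Y).2 := by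
      intro X hX Y hY hXY
      rw [hB₀, Finset.mem_filter] at hY
      simpa [Prot.run, hY.2] using h X hX Y hY.1 hXY
    have s₁ : ∀ X ∈ A, ∀ Y ∈ B₁, rows g X ≠ rows g Y →
        X (P₁.run X Y).1 (P₁.run X Y).2 ≠ Y (P₁.run X Y).1 (P₁.run X Y).2 := by
      intro X hX Y hY hXY
      rw [hB₁, Finset.mem_filter] at hY
      simpa [Prot.run, hY.2] using h X hX Y hY.1 hXY
    have x₀ : ∀ S : Finset (Fin m → Bool), Sep P₀.leaves
        ((A ∩ B₀).filter (fun X => rows g X ∈ S)) ((A ∩ B₁).filter (fun X => rows g X ∉ S)) := by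
      intro S
      refine (P₀.sep ((A ∩ B₁).filter (fun X => rows g X ∉ S))
        ((A ∩ B₀).filter (fun X => rows g X ∈ S)) ?_).symm
      intro X hX Y hY
      simp only [Finset.mem_filter, Finset.mem_inter] at hX hY
      exact s₀ X hX.1.1 Y hY.1.2 (fun he => hX.2 (he ▸ hY.2))
    have x₁ : ∀ S : Finset (Fin m → Bool), Sep P₁.leaves
        ((A ∩ B₁).filter (fun X => rows g X ∈ S)) ((A ∩ B₀).filter (fun X => rows g X ∉ S)) := by
      intro S
      refine (P₁.sep ((A ∩ B₀).filter (fun X => rows g X ∉ S))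
        ((A ∩ B₁).filter (fun X => rows g X ∈ S)) ?_).symm
      intro X hX Y hY
      simp only [Finset.mem_filter, Finset.mem_inter] at hX hY
      exact s₁ X hX.1.1 Y hY.1.2 (fun he => hX.2 (he ▸ hY.2))
    rw [e]
    rcases le_total (A ∩ B₀).card (A ∩ B₁).card with hle | hle
    · exact Node.merge h0 hw hK0 hK hd hle (ih₀ A B₀ s₀) (ih₁ A B₁ s₁) x₀
    · have := Node.merge h0 hw hK0 hK hd.symm hle (ih₁ A B₁ s₁) (ih₀ A B₀ s₀) x₁
      rw [Finset.union_comm, Nat.add_comm] at this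
      exact this

/-- There are at most two types per leaf. -/
theorem types_le {m n : ℕ} {g : (Fin n → Bool) → Bool}
    (P : Prot (Mat m n) (Mat m n) (Fin m × Fin n)) :
    ∀ A B : Finset (Mat m n),
      (∀ X ∈ A, ∀ Y ∈ B, rows g X ≠ rows g Y →
        X (P.run X Y).1 (P.run X Y).2 ≠ Y (P.run X Y).1 (P.run X Y).2) →
      ((A ∩ B).image (rows g)).card ≤ 2 * P.leaves := by
  classical
  induction P with
  | out o =>
    intro A B h
    refine types_two o ?_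
    intro X hX Y hY hXY
    rw [Finset.mem_inter] at hX hY
    exact h X hX.1 Y hY.2 hXY
  | alice q P₀ P₁ ih₀ ih₁ =>
    intro A B h
    set A₀ := A.filter (fun X => q X = false) with hA₀
    set A₁ := A.filter (fun X => q X = true) with hA₁
    have e : A ∩ B = (A₀ ∩ B) ∪ (A₁ ∩ B) := by
      ext X
      simp only [hA₀, hA₁, Finset.mem_inter, Finset.mem_union, Finset.mem_filter]
      cases q X <;> simp
    have s₀ := ih₀ A₀ B (by
      intro X hX Y hY hXY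
      rw [hA₀, Finset.mem_filter] at hX
      simpa [Prot.run, hX.2] using h X hX.1 Y hY hXY)
    have s₁ := ih₁ A₁ B (by
      intro X hX Y hY hXY
      rw [hA₁, Finset.mem_filter] at hX
      simpa [Prot.run, hX.2] using h X hX.1 Y hY hXY)
    rw [e, Finset.image_union]
    refine (Finset.card_union_le _ _).trans ?_
    simp only [Prot.leaves]
    omega
  | bob q P₀ P₁ ih₀ ih₁ =>
    intro A B h
    set B₀ := B.filter (fun X => q X = false) with hB₀
    set B₁ := B.filter (fun X => q X = true) with hB₁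
    have e : A ∩ B = (A ∩ B₀) ∪ (A ∩ B₁) := by
      ext X
      simp only [hB₀, hB₁, Finset.mem_inter, Finset.mem_union, Finset.mem_filter]
      cases q X <;> simp
    have s₀ := ih₀ A B₀ (by
      intro X hX Y hY hXY
      rw [hB₀, Finset.mem_filter] at hY
      simpa [Prot.run, hY.2] using h X hX Y hY.1 hXY)
    have s₁ := ih₁ A B₁ (by
      intro X hX Y hY hXY
      rw [hB₁, Finset.mem_filter] at hY
      simpa [Prot.run, hY.2] using h X hX Y hY.1 hXY)
    rw [e, Finset.image_union]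
    refine (Finset.card_union_le _ _).trans ?_
    simp only [Prot.leaves]
    omega

end Pool.Agent.H.MP_027d00_lc.UComp
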